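import Pool.Agent.KS6_46.YY.Main

/-!
# The additivities of continuum many Yorioka ideals can be prescribed arbitrarily

There are continuum many increasing functions `f x`, `x ∈ 2 ^ ω`, such that for every assignment of
regular uncountable cardinals `κ x` there is a ccc notion of forcing which forces
`add(I_{f x}) = κ x` for all `x`. So the set of the cardinals `add(I_f)` may have as many members as
there are reals in the ground model, in particular uncountably many.

The functions `f x` are given by an almost disjoint family of sets `E x` of natural numbers: at the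
`t`-th of a very sparse sequence of points, `f x` jumps if `t ∈ E x`. If `x` does not belong to the
finite set `Y`, then there are infinitely many points at which `f x` is larger than anything that
can be computed from the relevant values of the functions `f y`, `y ∈ Y`. The notion of forcing is
a finite support iteration of slalom forcings: for every `x` and every family of fewer than `κ x`
functions with the bound `2 ^ (2 ^ n * f x (2 ^ (n * n)))` one adds a slalom of width `n` which
captures all of them; dominating functions are added as well. A family of `κ x` many Cohen functions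
below `f x`, which is added first, is not captured by a slalom of width `2 ^ n`: given `κ x` many
conditions one forms a delta-system, and at a coordinate of its root of the type `y` either `y ≠ x`
and the bound is slow at many points, or there are fewer than `κ x` promises.
-/

set_option autoImplicit false

namespace Pool.Agent.Results.MP_958b88_lc.ContinuumManyAdd

open Cardinal Pool.Agent.TH777.Y Pool.Agent.KS6_46.YY Pool.Agent.Helper669.Forcing

/-- The finite binary sequence `s` is an initial segment of `z`. -/
def IsInitial (s : List Bool) (z : ℕ → Bool) : Prop :=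
  ∀ (i : ℕ) (h : i < s.length), s[i] = z i

/-- `[σ]_∞`: the points having `σ n` as an initial segment for infinitely many `n`. -/
def LimInf (σ : ℕ → List Bool) : Set (ℕ → Bool) :=
  {z | {n : ℕ | IsInitial (σ n) z}.Infinite}

/-- `x ≪ y`: for every `k` there is `m` with `x (i ^ k) ≤ y i` for all `i ≥ m`. -/
def FarBelow (x y : ℕ → ℕ) : Prop := ∀ k : ℕ, ∃ m : ℕ, ∀ i : ℕ, m ≤ i → x (i ^ k) ≤ y i

/-- The Yorioka ideal of `f`. -/
def Yorioka (f : ℕ → ℕ) : Set (Set (ℕ → Bool)) :=
  {A | ∃ σ : ℕ → List Bool, FarBelow f (fun n => (σ n).length) ∧ A ⊆ LimInf σ}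

/-- The additivity of `J`: the least cardinality of a subfamily of `J` whose union is not
in `J`. -/
noncomputable def addOf (J : Set (Set (ℕ → Bool))) : Cardinal.{0} :=
  sInf {κ | ∃ F : Set (Set (ℕ → Bool)), F ⊆ J ∧ ⋃₀ F ∉ J ∧ #F = κ}

theorem yorioka_eq (f : ℕ → ℕ) : Yorioka f = Pool.Agent.H31R3.Yor.I f := by
  ext A
  constructor
  · rintro ⟨σ, h1, h2⟩
    refine ⟨σ, fun k => Filter.eventually_atTop.2 (h1 k), fun z hz => ?_⟩
    exact Nat.frequently_atTop_iff_infinite.2 (h2 hz)
  · rintro ⟨σ, h1, h2⟩
    refine ⟨σ, fun k => Filter.eventually_atTop.1 (h1 k), fun z hz => ?_⟩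
    exact Nat.frequently_atTop_iff_infinite.1 (h2 hz)

theorem exists_values : ∃ κ : (ℕ → Bool) → Cardinal.{0}, Function.Injective κ ∧
    ∀ x, ℵ₀ < κ x ∧ (κ x).IsRegular := by
  let r : (ℕ → Bool) → (ℕ → Bool) → Prop := WellOrderingRel
  refine ⟨fun x => Order.succ (ℵ_ (Ordinal.typein r x)), fun x y h => ?_, fun x => ⟨?_, ?_⟩⟩
  · have h1 := Order.succ_injective h
    exact Ordinal.typein_injective r (aleph.injective h1)
  · exact (aleph0_le_aleph _).trans_lt (Order.lt_succ _)
  · exact isRegular_succ (aleph0_le_aleph _)

/-- **Main theorem.** There are increasing functions `f x : ω → ω`, for `x ∈ 2 ^ ω`, such that for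
every assignment `κ` of regular uncountable cardinals to the `x ∈ 2 ^ ω` some ccc notion of forcing
`P` has all its conditions forcing that cardinals are preserved and that the sentence `PhiFor K f`
holds, where `K x` is a well-ordered set of size `κ x`; there are one-to-one assignments `κ` of this
kind. In ZFC, the sentence `PhiFor K f`, for well-ordered sets `K x`, implies that
`add(I_{f x}) = #(K x)` for all `x`, and that there are at least `#X` many cardinals of the form
`add(I_g)` if the sets `K x`, `x ∈ X`, have different cardinalities. -/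
theorem result :
    (∃ f : (ℕ → Bool) → ℕ → ℕ, (∀ x, StrictMono (f x)) ∧
      ∀ κ : (ℕ → Bool) → Cardinal.{0}, (∀ x, ℵ₀ < κ x ∧ (κ x).IsRegular) →
        ∃ (P : Type) (_ : Preorder P), Nonempty P ∧
          (∀ A : Set P, (∀ p ∈ A, ∀ q ∈ A, p ≠ q → ¬ ∃ r, r ≤ p ∧ r ≤ q) → A.Countable) ∧
          ∀ p : P, p ∈ CardinalsPreserved.{0, 0} P ∧
            p ∈ PhiHolds P (fun x => (κ x).ord.ToType) f) ∧
    (∃ κ : (ℕ → Bool) → Cardinal.{0}, Function.Injective κ ∧ ∀ x, ℵ₀ < κ x ∧ (κ x).IsRegular) ∧
    (∀ (X : Type) (K : X → Type) [∀ x, LinearOrder (K x)] [∀ x, WellFoundedLT (K x)]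
      (f : X → ℕ → ℕ), (∀ x, StrictMono (f x)) → PhiFor K f →
      (∀ x, addOf (Yorioka (f x)) = #(K x)) ∧
      (Function.Injective (fun x => #(K x)) →
        Cardinal.lift.{1} #X ≤ #{κ | ∃ g : ℕ → ℕ, StrictMono g ∧ κ = addOf (Yorioka g)})) := by
  refine ⟨⟨fX, fX_strictMono, fun κ hκ => ?_⟩, exists_values, ?_⟩
  · obtain ⟨P, hP, h1, h2, h3⟩ := exists_forcing κ (fun x => (hκ x).1) (fun x => (hκ x).2)
    exact ⟨P, hP, h1, h2, h3⟩
  · intro X K _ _ f hf h
    have hadd : ∀ x, addOf (Yorioka (f x)) = #(K x) := by
      intro x
      rw [yorioka_eq]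
      exact add_eq K f hf h x
    refine ⟨hadd, fun hinj => ?_⟩
    have h1 : Function.Injective (fun x : X =>
        (⟨#(K x), f x, hf x, (hadd x).symm⟩ :
          {κ | ∃ g : ℕ → ℕ, StrictMono g ∧ κ = addOf (Yorioka g)})) := by
      intro x y hxy
      exact hinj (congrArg Subtype.val hxy)
    have h2 := Cardinal.mk_le_of_injective
      (h1.comp (Equiv.ulift.{1, 0} : ULift.{1} X ≃ X).injective)
    rwa [mk_uLift] at h2

end Pool.Agent.Results.MP_958b88_lc.ContinuumManyAdd
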